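import Pool.Agent.H80.JE.Targets

/-!
# EV2: the limit of the mean over the large columns
-/

set_option autoImplicit false

namespace Pool.Agent.H94.JE

open Finset Filter Topology Pool.Agent.H80.JD Pool.Agent.H80.JE

/-- the mean over the large columns, for `m` at least `1` -/
theorem ev2_eq (τ : ℝ) (m : ℕ) (hm : 1 ≤ m) :
    MB τ m / (Real.sqrt m * 2 ^ m) = ev m τ + τ * (((bigs τ m).card : ℝ) / 2 ^ m) := by
  classical
  have hs : 0 < Real.sqrt (m : ℝ) := Real.sqrt_pos.2 (by exact_mod_cast hm)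
  have hsum : (∑ v : Fin m → Bool, max (|((csum v : ℤ) : ℝ)| / Real.sqrt m - τ) 0)
      = ∑ v ∈ bigs τ m, (|((csum v : ℤ) : ℝ)| / Real.sqrt m - τ) := by
    unfold bigs
    rw [Finset.sum_filter]
    refine Finset.sum_congr rfl fun v _ => ?_
    by_cases hv : Big τ v
    · rw [if_pos hv, max_eq_left]
      have h1 : τ < |((csum v : ℤ) : ℝ)| / Real.sqrt m := (lt_div_iff₀ hs).2 hv
      linarith
    · rw [if_neg hv, max_eq_right]
      have h1 : |((csum v : ℤ) : ℝ)| / Real.sqrt m ≤ τ := (div_le_iff₀ hs).2 (not_lt.1 hv)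
      linarith
  have hMB : ∑ v ∈ bigs τ m, (|((csum v : ℤ) : ℝ)| / Real.sqrt m - τ)
      = MB τ m / Real.sqrt m - τ * (bigs τ m).card := by
    rw [Finset.sum_sub_distrib, Finset.sum_const, nsmul_eq_mul, ← Finset.sum_div]
    unfold MB
    ring
  unfold ev
  rw [hsum, hMB]
  have h2 : (2 : ℝ) ^ m ≠ 0 := by positivity
  field_simp
  ring

/-- EV2 -/
theorem ev2 (hEV1 : T_EV1) (hEV3 : T_EV3) : T_EV2 := by
  intro τ hτ
  have h1 := (hEV1 τ hτ).add ((hEV3 τ hτ).const_mul τ)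
  have h2 : ph τ - τ * (1 - Φ τ) + τ * (1 - Φ τ) = ph τ := by ring
  rw [h2] at h1
  refine h1.congr' ?_
  filter_upwards [eventually_ge_atTop 1] with m hm
  exact (ev2_eq τ m hm).symm

end Pool.Agent.H94.JE
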